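import Pool.Agent.H22.GS.Defs

/-!
# Theorem (H) for all window lengths (MP_c59857_nt): rounding the functions of a level

The functions of a level on one window lie near a finite set with few elements.
-/

set_option autoImplicit false

namespace Pool.Agent.H83.HB

open Finset Pool.Agent.H93 Pool.Agent.H18.MR Pool.Agent.H93.DE Pool.Agent.H6.N4D Pool.Agent.H93.ES

theorem norm_ee' (x : ℝ) : ‖ee x‖ = 1 := by
  unfold ee
  rw [Complex.norm_exp_ofReal_mul_I]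

theorem ee_add' (x y : ℝ) : ee (x + y) = ee x * ee y := by
  unfold ee
  rw [← Complex.exp_add]
  congr 1
  push_cast
  ring

theorem ee_int' (n : ℤ) : ee n = 1 := by
  unfold ee
  rw [Complex.exp_eq_one_iff]
  exact ⟨n, by push_cast; ring⟩

theorem ee_lip (x y : ℝ) : ‖ee x - ee y‖ ≤ 7 * |x - y| := by
  have h1 : ee x = ee (x - y) * ee y := by rw [← ee_add']; congr 1; ring
  have h2 : ee x - ee y = (ee (x - y) - 1) * ee y := by rw [h1]; ring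
  rw [h2, norm_mul, norm_ee', mul_one]
  unfold ee
  have h3 := Real.norm_exp_I_mul_ofReal_sub_one_le (x := 2 * Real.pi * (x - y))
  rw [mul_comm Complex.I] at h3
  refine h3.trans ?_
  rw [Real.norm_eq_abs, abs_mul, abs_of_pos Real.two_pi_pos]
  have := Real.pi_lt_d2
  have h4 : 0 ≤ |x - y| := abs_nonneg _
  nlinarith

/-- the rounded waves -/
noncomputable def wv (w : ℕ) (i : Fin (2 ^ (3 * w + 2)) × Fin (2 ^ (3 * w + 2)) × Fin (2 ^ (4 * w)))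
    (t : ℕ) : ℂ :=
  (⟨((i.1 : ℕ) - 2 ^ (3 * w) : ℝ) / 2 ^ (2 * w), ((i.2.1 : ℕ) - 2 ^ (3 * w) : ℝ) / 2 ^ (2 * w)⟩ : ℂ)
    * ee (((i.2.2 : ℕ) : ℝ) / 2 ^ (4 * w) * t)

theorem round_co (w : ℕ) (x : ℝ) (hx : |x| ≤ 2 ^ w) : ∃ a : Fin (2 ^ (3 * w + 2)),
    |x - ((a : ℕ) - 2 ^ (3 * w) : ℝ) / 2 ^ (2 * w)| ≤ 1 / 2 ^ (2 * w) := by
  have h2 : (0 : ℝ) < 2 ^ (2 * w) := by positivity
  have e3 : (2 : ℝ) ^ (3 * w) = 2 ^ w * 2 ^ (2 * w) := by rw [← pow_add]; congr 1; ring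
  rw [abs_le] at hx
  have h0 : 0 ≤ x * 2 ^ (2 * w) + 2 ^ (3 * w) := by
    rw [e3]
    nlinarith [hx.1]
  have h1 : x * 2 ^ (2 * w) + 2 ^ (3 * w) ≤ 2 * 2 ^ (3 * w) := by
    rw [e3]
    nlinarith [hx.2]
  have h3 := Nat.floor_le h0
  have h4 := Nat.lt_floor_add_one (x * 2 ^ (2 * w) + 2 ^ (3 * w))
  refine ⟨⟨⌊x * 2 ^ (2 * w) + 2 ^ (3 * w)⌋₊, ?_⟩, ?_⟩
  · have h5 : (⌊x * 2 ^ (2 * w) + 2 ^ (3 * w)⌋₊ : ℝ) < ((2 ^ (3 * w + 2) : ℕ) : ℝ) := by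
      push_cast
      rw [pow_add]
      have : (0 : ℝ) < 2 ^ (3 * w) := by positivity
      nlinarith
    exact_mod_cast h5
  · simp only
    rw [show x - ((⌊x * 2 ^ (2 * w) + 2 ^ (3 * w)⌋₊ : ℝ) - 2 ^ (3 * w)) / 2 ^ (2 * w) =
      (x * 2 ^ (2 * w) + 2 ^ (3 * w) - ⌊x * 2 ^ (2 * w) + 2 ^ (3 * w)⌋₊) / 2 ^ (2 * w) by
        field_simp; ring]
    rw [abs_div, abs_of_pos h2]
    gcongr
    rw [abs_le]
    constructor <;> linarith

theorem round_fr (w : ℕ) (x : ℝ) : ∃ c : Fin (2 ^ (4 * w)),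
    |Int.fract x - ((c : ℕ) : ℝ) / 2 ^ (4 * w)| ≤ 1 / 2 ^ (4 * w) := by
  have h2 : (0 : ℝ) < 2 ^ (4 * w) := by positivity
  have h0 : 0 ≤ Int.fract x * 2 ^ (4 * w) := mul_nonneg (Int.fract_nonneg x) h2.le
  have h1 : Int.fract x * 2 ^ (4 * w) < 2 ^ (4 * w) := by
    have := Int.fract_lt_one x
    nlinarith
  have h3 := Nat.floor_le h0
  have h4 := Nat.lt_floor_add_one (Int.fract x * 2 ^ (4 * w))
  refine ⟨⟨⌊Int.fract x * 2 ^ (4 * w)⌋₊, ?_⟩, ?_⟩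
  · have h5 : (⌊Int.fract x * 2 ^ (4 * w)⌋₊ : ℝ) < ((2 ^ (4 * w) : ℕ) : ℝ) := by
      push_cast
      linarith
    exact_mod_cast h5
  · simp only
    rw [show Int.fract x - (⌊Int.fract x * 2 ^ (4 * w)⌋₊ : ℝ) / 2 ^ (4 * w) =
      (Int.fract x * 2 ^ (4 * w) - ⌊Int.fract x * 2 ^ (4 * w)⌋₊) / 2 ^ (4 * w) by
        field_simp]
    rw [abs_div, abs_of_pos h2]
    gcongr
    rw [abs_le]
    constructor <;> linarith

/-- Rounding of one wave. -/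
theorem round_wv (w : ℕ) (v : ℂ) (φ : ℝ) (hv : ‖v‖ ≤ 2 ^ w) :
    ∃ i, ∀ t : ℕ, t < 2 ^ w → ‖v * ee (φ * t) - wv w i t‖ ≤ 9 / 4 ^ w := by
  obtain ⟨a, ha⟩ := round_co w v.re ((Complex.abs_re_le_norm v).trans hv)
  obtain ⟨b, hb⟩ := round_co w v.im ((Complex.abs_im_le_norm v).trans hv)
  obtain ⟨c, hc⟩ := round_fr w φ
  refine ⟨(a, b, c), ?_⟩
  intro t ht
  unfold wv
  simp only
  set v' : ℂ := ⟨((a : ℕ) - 2 ^ (3 * w) : ℝ) / 2 ^ (2 * w),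
    ((b : ℕ) - 2 ^ (3 * w) : ℝ) / 2 ^ (2 * w)⟩ with hv'
  have e1 : ee (φ * t) = ee (Int.fract φ * t) := by
    have : φ * t = Int.fract φ * t + ((⌊φ⌋ * (t : ℤ) : ℤ) : ℝ) := by
      have := Int.fract_add_floor φ
      conv_lhs => rw [← this]
      push_cast
      ring
    rw [this, ee_add', ee_int', mul_one]
  have e2 : v * ee (φ * t) - v' * ee (((c : ℕ) : ℝ) / 2 ^ (4 * w) * t) =
      v * (ee (Int.fract φ * t) - ee (((c : ℕ) : ℝ) / 2 ^ (4 * w) * t)) +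
        (v - v') * ee (((c : ℕ) : ℝ) / 2 ^ (4 * w) * t) := by
    rw [e1]; ring
  rw [e2]
  have h1 : ‖v - v'‖ ≤ 2 / 2 ^ (2 * w) := by
    refine (Complex.norm_le_abs_re_add_abs_im _).trans ?_
    rw [Complex.sub_re, Complex.sub_im, hv']
    simp only
    have : (2 : ℝ) / 2 ^ (2 * w) = 1 / 2 ^ (2 * w) + 1 / 2 ^ (2 * w) := by ring
    rw [this]
    exact add_le_add ha hb
  have h2 : ‖ee (Int.fract φ * t) - ee (((c : ℕ) : ℝ) / 2 ^ (4 * w) * t)‖ ≤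
      7 * (1 / 2 ^ (4 * w) * 2 ^ w) := by
    refine (ee_lip _ _).trans ?_
    rw [← sub_mul, abs_mul]
    have h3 : |(t : ℝ)| ≤ 2 ^ w := by
      rw [abs_of_nonneg (by positivity)]
      exact_mod_cast ht.le
    gcongr
  refine (norm_add_le _ _).trans ?_
  rw [norm_mul, norm_mul, norm_ee', mul_one]
  have h4 : (4 : ℝ) ^ w = 2 ^ (2 * w) := by rw [pow_mul]; norm_num
  have h5 : (2 : ℝ) ^ (4 * w) = 2 ^ (2 * w) * 2 ^ w * 2 ^ w := by
    rw [← pow_add, ← pow_add]; congr 1; ring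
  calc ‖v‖ * ‖ee (Int.fract φ * t) - ee (((c : ℕ) : ℝ) / 2 ^ (4 * w) * t)‖ + ‖v - v'‖
      ≤ 2 ^ w * (7 * (1 / 2 ^ (4 * w) * 2 ^ w)) + 2 / 2 ^ (2 * w) := by gcongr
    _ = 9 / 4 ^ w := by
        rw [h4, h5]
        field_simp
        norm_num

/-- the parameters of a rounded function of level `w` -/
abbrev Par (P w : ℕ) : Type :=
  ({q // q ∈ EB.QQ w} → Fin (2 ^ w)) × ({q // q ∈ EB.QQ w} → Fin P →
    (Fin (2 ^ (3 * w + 2)) × Fin (2 ^ (3 * w + 2)) × Fin (2 ^ (4 * w))))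

/-- the rounded functions of level `w` -/
noncomputable def rf (P w : ℕ) (p : Par P w) (t : ℕ) : ℂ :=
  ∑ q : {q // q ∈ EB.QQ w}, 1 / ((q : ℕ) : ℂ) * ((DR q ((p.1 q : ℕ) + t) : ℝ) : ℂ) *
    ∑ r : Fin P, wv w (p.2 q r) t

theorem DR_abs (q n : ℕ) (hq : 1 ≤ q) : |DR q n| ≤ q := by
  have h1 : (1 : ℝ) ≤ q := by exact_mod_cast hq
  unfold DR
  split_ifs
  · rw [abs_le]; constructor <;> linarith
  · rw [abs_le]; constructor <;> linarith

theorem QQ_pos {w q : ℕ} (hq : q ∈ EB.QQ w) : 1 ≤ q := by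
  unfold EB.QQ at hq
  exact (mem_filter.1 hq).2.one_lt.le

theorem QQ_le {w q : ℕ} (hq : q ∈ EB.QQ w) : q ≤ 2 ^ w := by
  unfold EB.QQ at hq
  have := (mem_Ioc.1 (mem_filter.1 hq).1).2
  exact this.trans (Nat.pow_le_pow_right (by norm_num) (Nat.div_le_self _ _))

theorem QQ_card (w : ℕ) : (EB.QQ w).card ≤ 2 ^ (w / 200) := by
  unfold EB.QQ
  refine (card_filter_le _ _).trans ?_
  rw [Nat.card_Ioc]
  exact Nat.sub_le _ _

/-- Rounding of a function of level `w`. -/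
theorem round_rf (P w n : ℕ) (hw : 2 * P + 16 ≤ w) (φ : ℕ → ℕ → ℝ) (u : ℕ → ℕ → ℂ)
    (hu : ∀ j < P, ∀ q ∈ EB.QQ w, ‖u j q‖ ≤ 2 ^ w) : ∃ p : Par P w, ∀ t : ℕ, t < 2 ^ w →
    ‖(∑ q ∈ EB.QQ w, 1 / (q : ℂ) * ((DR q (n + t) : ℝ) : ℂ) *
      ∑ j ∈ range P, u j q * ee (φ j q * ((n + t : ℕ) : ℝ))) - rf P w p t‖ ≤ (1 / 2) ^ w := by
  classical
  have hr : ∀ (q : {q // q ∈ EB.QQ w}) (r : Fin P), ∃ i, ∀ t : ℕ, t < 2 ^ w →
      ‖(u r q * ee (φ r q * n)) * ee (φ r q * t) - wv w i t‖ ≤ 9 / 4 ^ w := by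
    intro q r
    apply round_wv
    rw [norm_mul, norm_ee', mul_one]
    exact hu _ r.2 _ q.2
  choose i hi using hr
  have hlt : ∀ q : {q // q ∈ EB.QQ w}, n % (q : ℕ) < 2 ^ w := fun q =>
    (Nat.mod_lt _ (QQ_pos q.2)).trans_le (QQ_le q.2)
  refine ⟨(fun q => ⟨n % (q : ℕ), hlt q⟩, i), ?_⟩
  intro t ht
  unfold rf
  rw [← Finset.sum_coe_sort (EB.QQ w), ← Finset.sum_sub_distrib]
  have hD : ∀ q : ℕ, DR q (n % q + t) = DR q (n + t) := by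
    intro q
    unfold DR
    have : (q ∣ n % q + t) ↔ (q ∣ n + t) := by
      rw [Nat.dvd_iff_mod_eq_zero, Nat.dvd_iff_mod_eq_zero, Nat.mod_add_mod]
    simp only [this]
  have hterm : ∀ q : {q // q ∈ EB.QQ w},
      ‖1 / ((q : ℕ) : ℂ) * ((DR q (n + t) : ℝ) : ℂ) *
        ∑ j ∈ range P, u j q * ee (φ j q * ((n + t : ℕ) : ℝ)) -
        1 / ((q : ℕ) : ℂ) * ((DR q (n % (q : ℕ) + t) : ℝ) : ℂ) *
        ∑ r : Fin P, wv w (i q r) t‖ ≤ P * (9 / 4 ^ w) := by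
    intro q
    rw [hD, ← mul_sub, norm_mul, ← Fin.sum_univ_eq_sum_range
      (fun j => u j q * ee (φ j q * ((n + t : ℕ) : ℝ))) P, ← Finset.sum_sub_distrib]
    have hq1 : (1 : ℝ) ≤ ((q : ℕ) : ℝ) := by exact_mod_cast QQ_pos q.2
    have h1 : ‖1 / ((q : ℕ) : ℂ) * ((DR q (n + t) : ℝ) : ℂ)‖ ≤ 1 := by
      rw [norm_mul, norm_div, norm_one, Complex.norm_natCast, Complex.norm_real,
        Real.norm_eq_abs]
      have := DR_abs q (n + t) (QQ_pos q.2)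
      rw [one_div, inv_mul_le_iff₀ (by linarith), mul_one]
      exact this
    have h2 : ‖∑ r : Fin P, (u r q * ee (φ r q * ((n + t : ℕ) : ℝ)) - wv w (i q r) t)‖ ≤
        P * (9 / 4 ^ w) := by
      refine (norm_sum_le _ _).trans ?_
      calc ∑ r : Fin P, ‖u r q * ee (φ r q * ((n + t : ℕ) : ℝ)) - wv w (i q r) t‖
          ≤ ∑ _r : Fin P, (9 / 4 ^ w : ℝ) := by
            apply Finset.sum_le_sum
            intro r _
            have := hi q r t ht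
            rw [mul_assoc, ← ee_add'] at this
            rw [show φ r q * ((n + t : ℕ) : ℝ) = φ r q * n + φ r q * t by push_cast; ring]
            exact this
        _ = P * (9 / 4 ^ w) := by simp
    calc _ ≤ 1 * (P * (9 / 4 ^ w) : ℝ) := by gcongr
      _ = _ := one_mul _
  refine (norm_sum_le _ _).trans ?_
  calc _ ≤ ∑ _q : {q // q ∈ EB.QQ w}, (P * (9 / 4 ^ w) : ℝ) :=
        Finset.sum_le_sum (fun q _ => hterm q)
    _ = (EB.QQ w).card * (P * (9 / 4 ^ w)) := by simp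
    _ ≤ 2 ^ (w / 200) * (P * (9 / 4 ^ w)) := by
        gcongr
        exact_mod_cast QQ_card w
    _ ≤ (1 / 2) ^ w := by
        have h1 : (P : ℝ) ≤ 2 ^ P := by exact_mod_cast Nat.lt_two_pow_self.le
        have h2 : (2 : ℝ) ^ (w / 200) * (2 ^ P * 16) ≤ 2 ^ w := by
          rw [show (16 : ℝ) = 2 ^ 4 by norm_num, ← pow_add, ← pow_add]
          apply pow_le_pow_right₀ (by norm_num)
          omega
        have h4 : (4 : ℝ) ^ w = 2 ^ w * 2 ^ w := by rw [← mul_pow]; norm_num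
        have h5 : (0 : ℝ) < 2 ^ w := by positivity
        rw [h4, one_div, inv_pow]
        rw [show (2 : ℝ) ^ (w / 200) * (P * (9 / (2 ^ w * 2 ^ w))) =
          (2 ^ (w / 200) * (P * 9)) / 2 ^ w * (2 ^ w)⁻¹ by field_simp]
        have h6 : (2 : ℝ) ^ (w / 200) * (P * 9) ≤ 2 ^ w :=
          le_trans (by gcongr; norm_num) h2
        have h7 : (2 : ℝ) ^ (w / 200) * (P * 9) / 2 ^ w ≤ 1 := by
          rw [div_le_one h5]; exact h6
        calc _ ≤ 1 * ((2 : ℝ) ^ w)⁻¹ := by gcongr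
          _ = _ := one_mul _

/-- The number of the rounded functions. -/
theorem card_Par (P w : ℕ) (hw : 1 ≤ w) :
    Real.log (Fintype.card (Par P w)) ≤ (14 * P + 1) * w * 2 ^ (w / 200) := by
  classical
  have e : Fintype.card (Par P w) = 2 ^ ((EB.QQ w).card * (w + P * (10 * w + 4))) := by
    simp only [Par, Fintype.card_prod, Fintype.card_fun, Fintype.card_fin, Fintype.card_coe]
    rw [← pow_mul, ← pow_add, ← pow_add, ← pow_mul, ← pow_mul, ← pow_add]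
    congr 1
    ring
  rw [e]
  push_cast
  rw [Real.log_pow]
  have h1 : Real.log 2 ≤ 1 := by
    have := Real.log_two_lt_d9
    linarith
  have h0 : 0 ≤ Real.log 2 := Real.log_nonneg (by norm_num)
  have h2 : ((EB.QQ w).card : ℝ) ≤ 2 ^ (w / 200) := by exact_mod_cast QQ_card w
  have hw1 : (1 : ℝ) ≤ w := by exact_mod_cast hw
  push_cast
  calc ((EB.QQ w).card : ℝ) * (w + P * (10 * w + 4)) * Real.log 2
      ≤ 2 ^ (w / 200) * (w + P * (10 * w + 4 * w)) * 1 := by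
        gcongr
        nlinarith
    _ = _ := by ring

end Pool.Agent.H83.HB
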