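import Pool.Agent.H83.HB.Words
import Pool.Agent.H83.HB.Net
import Pool.Agent.H93.HB.Targets

/-!
# Theorem (H) for all window lengths (MP_c59857_nt), block (b): words, nets, rounding
-/

set_option autoImplicit false

namespace Pool.Agent.H83.HB

open Finset Pool.Agent.H18.MR Pool.Agent.H93.DE Pool.Agent.H6.N4D Pool.Agent.H93
  Pool.Agent.H93.ES Pool.Agent.H22.GS Pool.Agent.H6.G9 Pool.Agent.H56.HB Pool.Agent.H28.HB
  Pool.Agent.H93.HB

/-- The words of a field with `M` labels for the tiles of length `2 ^ w`. -/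
theorem pf_TLE : T_TLE := by
  intro N w o L M _ l hM hN ho
  have hN0 : 0 < N := Nat.pos_of_ne_zero (NeZero.ne N)
  have hT : 1 ≤ 2 ^ w := Nat.one_le_two_pow
  have hx : ∀ n : ZMod N, (fun x : ZMod N => (l (tp w o x), tl w o x)) (n + (o : ZMod N)) =
      (fun (m : Fin M) (t : ℕ) => ((m, ⟨t % 2 ^ w, Nat.mod_lt _ (by positivity)⟩) :
        Fin M × Fin (2 ^ w))) ((fun a : ℕ => l (((2 ^ w * a + o : ℕ) : ZMod N))) (n.val / 2 ^ w))
          (n.val % 2 ^ w) := by
    intro n
    have hv : (n + (o : ZMod N)).val = (n.val + o) % N := by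
      rw [ZMod.val_add, ZMod.val_natCast]
      simp
    have htl : ((tl w o (n + (o : ZMod N)) : Fin (2 ^ w)) : ℕ) = n.val % 2 ^ w := by
      show ((n + (o : ZMod N)).val + 2 ^ w - o) % 2 ^ w = _
      rw [hv]
      have h1 : ((n.val + o) % N) % 2 ^ w = (n.val + o) % 2 ^ w := Nat.mod_mod_of_dvd _ hN
      have h2 : ((n.val + o) % N + 2 ^ w - o + o) % 2 ^ w = (n.val + o) % 2 ^ w := by
        rw [Nat.sub_add_cancel (by omega), Nat.add_mod_right, h1]
      have h3 : (n.val + o) % N + 2 ^ w - o ≡ n.val [MOD 2 ^ w] := by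
        have : (n.val + o) % N + 2 ^ w - o + o ≡ n.val + o [MOD 2 ^ w] := h2
        exact Nat.ModEq.add_right_cancel' o this
      exact h3
    have htp : tp w o (n + (o : ZMod N)) = ((2 ^ w * (n.val / 2 ^ w) + o : ℕ) : ZMod N) := by
      unfold tp
      rw [htl]
      have h4 : (n : ZMod N) = ((2 ^ w * (n.val / 2 ^ w) + n.val % 2 ^ w : ℕ) : ZMod N) := by
        rw [Nat.div_add_mod]
        exact (ZMod.natCast_zmod_val n).symm
      rw [sub_eq_iff_eq_add]
      conv_lhs => rw [h4]
      push_cast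
      ring
    simp only
    rw [htp]
    congr 1
    ext
    simp [htl]
  obtain ⟨N', rfl⟩ := hN
  obtain ⟨g, hg⟩ := wd_labels (γ := Fin M × Fin (2 ^ w)) (M := L) hT hM (o : ZMod (2 ^ w * N'))
    (fun x : ZMod (2 ^ w * N') => (l (tp w o x), tl w o x))
    (fun a : ℕ => l (((2 ^ w * a + o : ℕ) : ZMod (2 ^ w * N'))))
    (fun (m : Fin M) (t : ℕ) => ((m, ⟨t % 2 ^ w, Nat.mod_lt _ (by positivity)⟩) :
        Fin M × Fin (2 ^ w))) hx
  haveI : Nonempty (Fin M) := ⟨⟨0, hM⟩⟩
  haveI : Nonempty (Fin (2 ^ w)) := ⟨⟨0, hT⟩⟩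
  let e := Fintype.equivFin (Fin (2 ^ w) × (Fin (L / 2 ^ w + 2) → Fin M))
  refine ⟨Fintype.card (Fin (2 ^ w) × (Fin (L / 2 ^ w + 2) → Fin M)), fun n => e
    (⟨(n - (o : ZMod (2 ^ w * N'))).val % 2 ^ w, Nat.mod_lt _ hT⟩, fun i =>
      l (((2 ^ w * (((n - (o : ZMod (2 ^ w * N'))).val / 2 ^ w + i) % N') + o : ℕ) :
        ZMod (2 ^ w * N')))),
    fun m => g (e.symm m), Fintype.card_pos, ?_, ?_⟩
  · rw [log_card_labels hT hM]
    push_cast
    exact le_refl _
  · intro n
    simp only [Equiv.symm_apply_apply]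
    exact hg n

/-- A finite net for the dual functions of all families on a window. -/
theorem pf_NET : T_NET := by
  intro P
  refine ⟨14 * P + 1, 2 * P + 16, by positivity, ?_⟩
  intro w hw
  classical
  let e := Fintype.equivFin (Par P w)
  refine ⟨Fintype.card (Par P w), fun l t => (rf P w (e.symm l) t).re, Fintype.card_pos, ?_, ?_⟩
  · exact card_Par P w (by omega)
  · intro a φ u hu
    have hn : ∀ x : ℝ, ‖ee x‖ = 1 := norm_ee'
    have hP : (P : ℝ) ≤ 2 ^ w := by
      have : P ≤ 2 ^ w := (Nat.lt_two_pow_self.le).trans (Nat.pow_le_pow_right (by norm_num)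
        (by omega : P ≤ w))
      exact_mod_cast this
    obtain ⟨p, hp⟩ := round_rf P w a hw φ (fun j q => u j q * ee (-(φ j q * a)))
      (fun j _ q _ => by rw [norm_mul, hn, mul_one]; exact (hu j q).trans hP)
    refine ⟨e p, ?_⟩
    intro t ht
    have h1 := hp t ht
    simp only [Equiv.symm_apply_apply]
    rw [← Complex.sub_re]
    refine (Complex.abs_re_le_norm _).trans ?_
    have h2 : dg w a P φ u t = ∑ q ∈ EB.QQ w, 1 / (q : ℂ) * ((DR q (a + t) : ℝ) : ℂ) *
        ∑ j ∈ range P, u j q * ee (-(φ j q * a)) * ee (φ j q * ((a + t : ℕ) : ℝ)) := by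
      unfold dg fe
      apply Finset.sum_congr rfl
      intro q _
      congr 1
      apply Finset.sum_congr rfl
      intro j _
      rw [mul_assoc, ← ee_add']
      congr 2
      push_cast
      ring
    rw [h2]
    refine h1.trans ?_
    exact pow_le_pow_of_le_one (by norm_num) (by norm_num) (Nat.div_le_self w 2)

/-- A finite net for the sums of exponentials on a window. -/
theorem pf_NE0 : T_NE0 := by
  intro R
  refine ⟨14 * R + 1, R + 4, by positivity, ?_⟩
  intro s hs
  classical
  let A : Type := Fin R → (Fin (2 ^ (3 * s + 2)) × Fin (2 ^ (3 * s + 2)) × Fin (2 ^ (4 * s)))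
  let e := Fintype.equivFin A
  refine ⟨Fintype.card A, fun l t => (∑ r, wv s (e.symm l r) t).re, Fintype.card_pos, ?_, ?_⟩
  · have e1 : Fintype.card A = 2 ^ (R * (10 * s + 4)) := by
      simp only [A, Fintype.card_prod, Fintype.card_fun, Fintype.card_fin]
      rw [← pow_add, ← pow_add, ← pow_mul]
      congr 1
      ring
    rw [e1]
    push_cast
    rw [Real.log_pow]
    have h1 : Real.log 2 ≤ 1 := by
      have := Real.log_two_lt_d9
      linarith
    have h0 : 0 ≤ Real.log 2 := Real.log_nonneg (by norm_num)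
    have hs1 : (1 : ℝ) ≤ s := by exact_mod_cast (by omega : 1 ≤ s)
    push_cast
    calc (R : ℝ) * (10 * s + 4) * Real.log 2 ≤ R * (10 * s + 4 * s) * 1 := by
          gcongr
          nlinarith
      _ ≤ (14 * R + 1) * s := by nlinarith
  · intro b β hb
    have hr : ∀ r : Fin R, ∃ i, ∀ t : ℕ, t < 2 ^ s → ‖b r * ee (β r * t) - wv s i t‖ ≤ 9 / 4 ^ s := by
      intro r
      apply round_wv
      exact (hb r).trans (one_le_pow₀ (by norm_num))
    choose i hi using hr
    refine ⟨e i, ?_⟩
    intro t ht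
    simp only [Equiv.symm_apply_apply]
    rw [← Complex.sub_re, ← Fin.sum_univ_eq_sum_range (fun r => b r * ee (β r * t)) R,
      ← Finset.sum_sub_distrib]
    refine (Complex.abs_re_le_norm _).trans ((norm_sum_le _ _).trans ?_)
    calc ∑ r : Fin R, ‖b r * ee (β r * t) - wv s (i r) t‖ ≤ ∑ _r : Fin R, (9 / 4 ^ s : ℝ) :=
          Finset.sum_le_sum (fun r _ => hi r t ht)
      _ = R * (9 / 4 ^ s) := by simp
      _ ≤ (1 / 2) ^ (s / 2) := by
          have h1 : (R : ℝ) ≤ 2 ^ R := by exact_mod_cast Nat.lt_two_pow_self.le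
          have h2 : (2 : ℝ) ^ R * 16 ≤ 2 ^ s := by
            rw [show (16 : ℝ) = 2 ^ 4 by norm_num, ← pow_add]
            exact pow_le_pow_right₀ (by norm_num) hs
          have h4 : (4 : ℝ) ^ s = 2 ^ s * 2 ^ s := by rw [← mul_pow]; norm_num
          have h5 : (0 : ℝ) < 2 ^ s := by positivity
          refine le_trans ?_ (pow_le_pow_of_le_one (by norm_num) (by norm_num)
            (Nat.div_le_self s 2))
          rw [h4, one_div, inv_pow]
          rw [show (R : ℝ) * (9 / (2 ^ s * 2 ^ s)) = (R * 9) / 2 ^ s * (2 ^ s)⁻¹ by field_simp]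
          have h6 : (R : ℝ) * 9 ≤ 2 ^ s := le_trans (by gcongr; norm_num) h2
          have h7 : (R : ℝ) * 9 / 2 ^ s ≤ 1 := by rw [div_le_one h5]; exact h6
          calc _ ≤ 1 * ((2 : ℝ) ^ s)⁻¹ := by gcongr
            _ = _ := one_mul _

/-- Rounding to binary digits. -/
theorem pf_RND : T_RND := by
  intro D
  induction D with
  | zero =>
    intro v hv
    refine ⟨fun i => i.elim0, ?_⟩
    simpa [HB.val] using hv
  | succ D ih =>
    intro v hv
    rw [abs_le] at hv
    have key : ∀ c : Bool, |2 * v - sg c| ≤ 1 → ∃ b : Fin (D + 1) → Bool,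
        |v - HB.val (D + 1) b| ≤ (1 / 2) ^ (D + 1) := by
      intro c hc
      obtain ⟨b, hb⟩ := ih _ hc
      refine ⟨Fin.cons c b, ?_⟩
      have hval : HB.val (D + 1) (Fin.cons c b) = sg c / 2 + HB.val D b / 2 := by
        unfold HB.val
        rw [Fin.sum_univ_succ]
        simp only [Fin.cons_zero, Fin.cons_succ, Fin.val_zero, Fin.val_succ]
        rw [Finset.sum_div]
        congr 1
        · ring
        · apply Finset.sum_congr rfl
          intro d _
          rw [pow_succ (1 / 2 : ℝ) ((d : ℕ) + 1)]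
          ring
      rw [hval, show v - (sg c / 2 + HB.val D b / 2) = (2 * v - sg c - HB.val D b) / 2 by ring,
        abs_div, abs_two, pow_succ]
      linarith
    rcases le_total 0 v with h | h
    · apply key true
      rw [abs_le]
      simp only [sg]
      constructor <;> simp <;> linarith [hv.1, hv.2]
    · apply key false
      rw [abs_le]
      simp only [sg]
      constructor <;> simp <;> linarith [hv.1, hv.2]

end Pool.Agent.H83.HB
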