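import Pool.Agent.H22.GS.Defs

/-!
# Theorem (H) for all window lengths (MP_c59857_nt): the words of a function with few labels

A sequence on the cyclic group which is on every tile of length `T` (the tiles start at `o`)
one of `L` sequences has words of small entropy.
-/

set_option autoImplicit false

namespace Pool.Agent.H83.HB

open Finset Pool.Agent.H93 Pool.Agent.H18.MR Pool.Agent.H93.DE

/-- The word at `n` of a sequence with labels on tiles is a function of the place in the tile and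
of the labels of `M / T + 2` tiles. -/
theorem wd_labels {γ : Type} {N' T M L : ℕ} [NeZero (T * N')] (hT : 1 ≤ T) (hL : 1 ≤ L)
    (o : ZMod (T * N')) (x : ZMod (T * N') → γ) (lab : ℕ → Fin L) (G : Fin L → ℕ → γ)
    (hx : ∀ n : ZMod (T * N'), x (n + o) = G (lab (n.val / T)) (n.val % T)) :
    ∃ g : Fin T × (Fin (M / T + 2) → Fin L) → (Fin M → γ), ∀ n,
      wd x M n = g (⟨(n - o).val % T, Nat.mod_lt _ hT⟩,
        fun i => lab (((n - o).val / T + i) % N')) := by
  refine ⟨fun p t => G (if h : ((p.1 : ℕ) + t) / T < M / T + 2 then p.2 ⟨_, h⟩ else ⟨0, hL⟩)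
      (((p.1 : ℕ) + t) % T), ?_⟩
  intro n'
  obtain ⟨n, rfl⟩ : ∃ n, n' = n + o := ⟨n' - o, by ring⟩
  rw [add_sub_cancel_right]
  funext t
  show x (n + o + ((t : ℕ) : ZMod (T * N'))) = _
  have e0 : n + o + ((t : ℕ) : ZMod (T * N')) = (n + ((t : ℕ) : ZMod (T * N'))) + o := by ring
  rw [e0, hx]
  have hlt : (n.val % T + (t : ℕ)) / T < M / T + 2 := by
    have h1 : n.val % T < T := Nat.mod_lt _ hT
    have h2 : (t : ℕ) < M := t.2
    have h3 : (n.val % T + (t : ℕ)) / T ≤ (T + M) / T := Nat.div_le_div_right (by omega)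
    rw [Nat.add_div_left M hT] at h3
    omega
  have hval : (n + ((t : ℕ) : ZMod (T * N'))).val = (n.val + t) % (T * N') := by
    rw [ZMod.val_add, ZMod.val_natCast]
    simp
  have hdec : n.val + (t : ℕ) = T * (n.val / T + (n.val % T + t) / T) +
      (n.val % T + t) % T := by
    have h1 := Nat.div_add_mod n.val T
    have h2 := Nat.div_add_mod (n.val % T + (t : ℕ)) T
    rw [Nat.mul_add]
    omega
  have hm : (n.val % T + (t : ℕ)) % T < T := Nat.mod_lt _ hT
  have h1 : (n.val + (t : ℕ)) % (T * N') =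
      T * ((n.val / T + (n.val % T + t) / T) % N') + (n.val % T + t) % T := by
    rw [Nat.mod_mul]
    have e1 : (n.val + (t : ℕ)) % T = (n.val % T + t) % T := by simp
    have e2 : (n.val + (t : ℕ)) / T = n.val / T + (n.val % T + t) / T := by
      conv_lhs => rw [hdec]
      rw [Nat.mul_add_div hT, Nat.div_eq_of_lt hm, add_zero]
    rw [e1, e2]
    ring
  have h2 : (n.val + (t : ℕ)) % (T * N') / T = (n.val / T + (n.val % T + t) / T) % N' := by
    rw [h1, Nat.mul_add_div hT, Nat.div_eq_of_lt hm, add_zero]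
  have h3 : (n.val + (t : ℕ)) % (T * N') % T = (n.val % T + t) % T := by
    rw [h1, Nat.mul_add_mod]
    simp
  rw [hval, h2, h3]
  simp only
  rw [dif_pos hlt]

theorem log_card_labels {T K L : ℕ} (hT : 1 ≤ T) (hL : 1 ≤ L) :
    Real.log (Fintype.card (Fin T × (Fin K → Fin L))) =
      Real.log T + (K : ℝ) * Real.log L := by
  rw [Fintype.card_prod, Fintype.card_fun, Fintype.card_fin, Fintype.card_fin, Fintype.card_fin]
  push_cast
  rw [Real.log_mul (by positivity) (by positivity), Real.log_pow]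

/-- The words of a sequence with `L` labels per tile of length `T`. -/
theorem ent_labels {γ : Type} [Fintype γ] [DecidableEq γ] {N T M L : ℕ} [NeZero N] (hT : 1 ≤ T)
    (hTN : T ∣ N) (hL : 1 ≤ L) (o : ZMod N)
    (x : ZMod N → γ) (lab : ℕ → Fin L) (G : Fin L → ℕ → γ)
    (hx : ∀ n : ZMod N, x (n + o) = G (lab (n.val / T)) (n.val % T)) :
    ent (unif N) (fun n => wd x M n) ≤
      Real.log T + ((M / T + 2 : ℕ) : ℝ) * Real.log L := by
  classical
  obtain ⟨N', rfl⟩ := hTN
  obtain ⟨g, hg⟩ := wd_labels (M := M) hT hL o x lab G hx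
  rw [show (fun n => wd x M n) = fun n => g (⟨(n - o).val % T, Nat.mod_lt _ hT⟩,
    fun i => lab (((n - o).val / T + i) % N')) from funext hg]
  refine (ent_comp_le (unif (T * N')) _ g).trans ?_
  haveI : Nonempty (Fin T) := ⟨⟨0, hT⟩⟩
  haveI : Nonempty (Fin L) := ⟨⟨0, hL⟩⟩
  exact (ent_le_log_card (unif (T * N')) _).trans (le_of_eq (log_card_labels hT hL))

/-- Entropy is subadditive. -/
theorem ent_pair {Ω α β : Type} [Fintype α] [DecidableEq α] [Fintype β] [DecidableEq β]
    (μ : FAP Ω) (X : Ω → α) (Y : Ω → β) :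
    ent μ (fun ω => (X ω, Y ω)) ≤ ent μ X + ent μ Y := by
  classical
  have h := ent_submod μ X Y (fun _ => ())
  have h0 := ent_nonneg μ (fun _ : Ω => ())
  have h1 : ent μ (fun ω => (X ω, Y ω, ())) = ent μ (fun ω => (X ω, Y ω)) :=
    ent_congr_inj μ _ _ (fun p => (p.1, p.2.1)) (fun p => (p.1, p.2, ())) (fun _ => rfl)
      (fun _ => rfl)
  have h2 : ent μ (fun ω => (X ω, ())) = ent μ X :=
    ent_congr_inj μ _ _ (fun p => p.1) (fun p => (p, ())) (fun _ => rfl) (fun _ => rfl)
  have h3 : ent μ (fun ω => (Y ω, ())) = ent μ Y :=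
    ent_congr_inj μ _ _ (fun p => p.1) (fun p => (p, ())) (fun _ => rfl) (fun _ => rfl)
  linarith

theorem wd_pair {γ δ ε A : Type} {N M : ℕ} (x : ZMod N → γ) (y : ZMod N → δ) (z : ZMod N → ε)
    (F : γ → δ → ε) (g : A → (Fin M → δ)) (Y : ZMod N → A) (hg : ∀ n, wd y M n = g (Y n))
    (hz : ∀ n, z n = F (x n) (y n)) (n : ZMod N) :
    wd z M n = (fun t => F (wd x M n t) (g (Y n) t)) := by
  funext t
  rw [← hg n]
  exact hz _

theorem ent_pair_card {γ δ ε A : Type} [Fintype γ] [DecidableEq γ] [Fintype ε] [DecidableEq ε]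
    [Fintype A] [DecidableEq A] [Nonempty A]
    {N M : ℕ} [NeZero N] (x : ZMod N → γ) (y : ZMod N → δ) (z : ZMod N → ε) (F : γ → δ → ε)
    (g : A → (Fin M → δ)) (Y : ZMod N → A) (hg : ∀ n, wd y M n = g (Y n))
    (hz : ∀ n, z n = F (x n) (y n)) :
    ent (unif N) (fun n => wd z M n) ≤
      ent (unif N) (fun n => wd x M n) + Real.log (Fintype.card A) := by
  have e1 : (fun n => wd z M n) =
      fun n => (fun p : (Fin M → γ) × A => (fun t => F (p.1 t) (g p.2 t) : Fin M → ε))
        (wd x M n, Y n) := by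
    funext n
    exact wd_pair x y z F g Y hg hz n
  rw [e1]
  refine (ent_comp_le (unif N) (fun n => (wd x M n, Y n))
    (fun p : (Fin M → γ) × A => (fun t => F (p.1 t) (g p.2 t) : Fin M → ε))).trans ?_
  refine (ent_pair (unif N) (fun n => wd x M n) Y).trans ?_
  have := ent_le_log_card (unif N) Y
  linarith

/-- The words of a function of two sequences, the second one with `L` labels per tile. -/
theorem ent_labels_add {γ δ ε : Type} [Fintype γ] [DecidableEq γ] [Fintype ε] [DecidableEq ε]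
    {N T M L : ℕ} [NeZero N] (hT : 1 ≤ T) (hTN : T ∣ N) (hL : 1 ≤ L) (o : ZMod N)
    (x : ZMod N → γ) (y : ZMod N → δ) (z : ZMod N → ε) (F : γ → δ → ε)
    (lab : ℕ → Fin L) (G : Fin L → ℕ → δ)
    (hy : ∀ n : ZMod N, y (n + o) = G (lab (n.val / T)) (n.val % T))
    (hz : ∀ n, z n = F (x n) (y n)) :
    ent (unif N) (fun n => wd z M n) ≤
      ent (unif N) (fun n => wd x M n) +
        (Real.log T + ((M / T + 2 : ℕ) : ℝ) * Real.log L) := by
  classical
  obtain ⟨N', rfl⟩ := hTN
  obtain ⟨g, hg⟩ := wd_labels (M := M) hT hL o y lab G hy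
  haveI : Nonempty (Fin T) := ⟨⟨0, hT⟩⟩
  haveI : Nonempty (Fin L) := ⟨⟨0, hL⟩⟩
  have h := ent_pair_card x y z F g (fun n => ((⟨(n - o).val % T, Nat.mod_lt _ hT⟩,
    fun i => lab (((n - o).val / T + i) % N')) : Fin T × (Fin (M / T + 2) → Fin L))) hg hz
  rw [log_card_labels hT hL] at h
  exact h

end Pool.Agent.H83.HB
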